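import Pool.Agent.Lib.MP_07117b_nt_h11.LocF1
import Pool.Agent.Lib.MP_07117b_nt_h11.LocRoots
import Pool.Agent.Lib.MP_07117b_nt_h62.Roots4
import Pool.Agent.Lib.MP_07117b_nt_h2.Alg

/-!
Row L5: the root of the tower, some `b ∈ B` has label `s0` or `s2` at `z0` and label `0` at the
other twelve nodes.
-/

namespace Pool.Agent.Arb

namespace Loc6

variable {Ω : Type*} [NormedField Ω] {c : Cst Ω} {B : Subgroup (Ω ≃+* Ω)}

/-- the norm of a sum with a smaller second term -/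
theorem norm_add_eq (h : Loc3 c B) {x y : Ω} (hxy : ‖y‖ < ‖x‖) : ‖x + y‖ = ‖x‖ := by
  refine le_antisymm ((h.ultra x y).trans (max_le le_rfl hxy.le)) ?_
  have h1 : x = (x + y) + (-y) := by ring
  have h2 := h.ultra (x + y) (-y)
  rw [← h1, norm_neg] at h2
  rcases le_max_iff.1 h2 with h3 | h3
  · exact h3
  · exact absurd h3 (not_le.2 hxy)

/-- a sum of two elements of norm less than `r` has norm less than `r` -/
theorem norm_add_lt (h : Loc3 c B) {x y : Ω} {r : ℝ} (hx : ‖x‖ < r) (hy : ‖y‖ < r) :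
    ‖x + y‖ < r :=
  (h.ultra x y).trans_lt (max_lt hx hy)

/-- powers of an element close to `-1` -/
theorem pow_close (h : Loc3 c B) {s : Ω} (hs : ‖s + 1‖ < 1) (hs1 : ‖s‖ = 1) (k : ℕ) :
    ‖s ^ k - (-1) ^ k‖ < 1 := by
  induction k with
  | zero => simp
  | succ k ih =>
    have h1 : s ^ (k + 1) - (-1) ^ (k + 1) = s * (s ^ k - (-1) ^ k) + (-1) ^ k * (s + 1) := by
      ring
    rw [h1]
    refine norm_add_lt h ?_ ?_
    · rw [norm_mul, hs1, one_mul]; exact ih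
    · rw [norm_mul, norm_pow, norm_neg, norm_one, one_pow, one_mul]; exact hs

end Loc6

section
variable {Ω : Type*} [NormedField Ω] [IsAlgClosed Ω] [CharZero Ω] {c : Cst Ω}
  {B : Subgroup (Ω ≃+* Ω)}

/-- the key point: a square root of `D_1(z0)` is not fixed by `B` -/
theorem Loc3.sqrt_not_fixed (h : Loc3 c B) {z : Ω} (hz : ‖z + c.ω‖ ^ 2 = 1 / 27) {y : Ω}
    (hy : y ^ 2 = Cst.D (c.ω ^ 2 * z)) : ¬ ∀ b ∈ B, b y = y := by
  intro hfix
  obtain ⟨h2, -, hω, -, -, -, -, -, -, -, -, -⟩ := h.norms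
  have hω3 : c.ω ^ 3 = 1 := by linear_combination (c.ω - 1) * c.hω
  have hr2 : (2 * c.ω + 1) ^ 2 = -3 := by linear_combination 4 * c.hω
  have h3 := h.three
  have h30 : (3 : Ω) ≠ 0 := by norm_num
  have hr0 : (2 * c.ω + 1) ≠ 0 := by
    intro h0
    rw [h0] at hr2
    apply h30
    linear_combination hr2
  -- the relative error
  set e := z + c.ω with he
  have hD : Cst.D (c.ω ^ 2 * z) = 3 - 3 * c.ω ^ 2 * e + c.ω * e ^ 2 := by
    unfold Cst.D
    rw [he]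
    linear_combination (c.ω * z ^ 2 + 2) * hω3
  have hen : ‖e‖ < 1 / 3 := by
    nlinarith [norm_nonneg e]
  set q := y / (2 * c.ω + 1) with hq
  have hq2 : q ^ 2 + 1 = c.ω ^ 2 * e + -(c.ω * e ^ 2 / 3) := by
    have : q ^ 2 = y ^ 2 / (-3) := by rw [hq, div_pow, hr2]
    rw [this, hy, hD]
    field_simp
    ring
  have hq2n : ‖q ^ 2 + 1‖ < 1 := by
    rw [hq2]
    refine Loc6.norm_add_lt h ?_ ?_
    · rw [norm_mul, norm_pow, hω, one_pow, one_mul]; linarith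
    · rw [norm_neg, norm_div, norm_mul, hω, one_mul, norm_pow, h3]
      nlinarith [norm_nonneg e]
  have hq2' : ‖q ^ 2‖ = 1 := by
    have h1 : q ^ 2 = -1 + (q ^ 2 + 1) := by ring
    rw [h1, Loc6.norm_add_eq h (by rw [norm_neg, norm_one]; exact hq2n), norm_neg, norm_one]
  have hqn : ‖q‖ = 1 := by
    rw [norm_pow] at hq2'
    exact (pow_eq_one_iff_of_nonneg (norm_nonneg q) two_ne_zero).1 hq2'
  have hqf : ∀ b ∈ B, b q = q := by
    intro b hb
    rw [hq, map_div₀, map_add, map_mul, h.fω b hb, hfix b hb, map_ofNat, map_one]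
  have hres := h.res q hqf hqn.le
  have h13 := Loc6.pow_close h hq2n hq2' 13
  have h4 : ‖q ^ 27 + q‖ < 1 := by
    have h5 : q ^ 27 + q = q * ((q ^ 2) ^ 13 - (-1) ^ 13) := by ring
    rw [h5, norm_mul, hqn, one_mul]
    exact h13
  have h6 : ‖2 * q‖ < 1 := by
    have h7 : 2 * q = (q ^ 27 + q) + -(q ^ 27 - q) := by ring
    rw [h7]
    refine Loc6.norm_add_lt h h4 ?_
    rw [norm_neg]; exact hres
  rw [norm_mul, h2, hqn, one_mul] at h6
  exact lt_irrefl _ h6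

/-- row L5 (root) -/
theorem Loc3.loc6 (h : Loc3 c B) :
    ∃ z0 ∈ c.LS 0, ∃ b ∈ B, (∀ z : Ω, z ^ 13 = z0 ^ 13 → b z = z) ∧
      (∃ v : V4, (v = (1, 0) ∨ v = (1, 1)) ∧ ∀ w : Ω, c.P w = z0 → b w = c.S v w) ∧
      (∀ w : Ω, (c.P w) ^ 13 = z0 ^ 13 → c.P w ≠ z0 → b w = w) := by
  obtain ⟨-, -, -, -, -, -, -, -, -, -, -, -, hm, hmω⟩ := h.norms
  obtain ⟨z0, hz0, -, hfix, hG, hnorm⟩ := h.roots13 hm
  have hLS : z0 ∈ c.LS 0 := hz0
  have hz0ω : ‖z0 + c.ω‖ ^ 2 = 1 / 27 := by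
    have := hnorm 1
    rw [pow_one] at this
    rw [this, hmω]
  have hω3 : c.ω ^ 3 = 1 := by linear_combination (c.ω - 1) * c.hω
  obtain ⟨hz00, hz06⟩ := Cst.LS_ne hLS
  obtain ⟨w0, hw0, hPw0⟩ := Cst.exists_P (c := c) z0
  have hgood : c.Good w0 := ⟨hw0, by rw [hPw0]; exact hz00, by rw [hPw0]; exact hz06⟩
  have hne : ∀ w : Ω, 1 - 2 * c.a * w ^ 3 ≠ 0 → 1 - 2 * c.a * (c.ω ^ 2 * w) ^ 3 ≠ 0 := by
    intro w hw h1
    apply hw
    have h2 : (c.ω ^ 2 * w) ^ 3 = w ^ 3 := by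
      linear_combination (c.ω ^ 3 + 1) * w ^ 3 * hω3
    rw [← h1, h2]
  have hPω2 : ∀ w : Ω, c.P (c.ω ^ 2 * w) = c.ω ^ 2 * c.P w := by
    intro w
    rw [pow_two, mul_assoc, Cst.P_ω, Cst.P_ω, mul_assoc]
  -- the square root
  have hy : (c.X (c.ω ^ 2 * w0) - c.ω ^ 2 * z0 + 1) ^ 2 = Cst.D (c.ω ^ 2 * z0) := by
    have h1 := Cst.X_sq (c := c) (hne w0 hw0)
    rw [hPω2, hPw0] at h1
    exact h1
  have hnf := h.sqrt_not_fixed hz0ω hy
  push Not at hnf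
  obtain ⟨b, hb, hby⟩ := hnf
  have hba := h.fa b hb
  have hbω := h.fω b hb
  have hbz0 : b z0 = z0 := hfix z0 hz0 b hb
  have hbP : ∀ w : Ω, c.P w = z0 → c.P (b w) = c.P w := by
    intro w hw
    rw [← Cst.b_P b hba, hw, hbz0]
  obtain ⟨v, hv⟩ := hgood.trans (hbP w0 hPw0)
  refine ⟨z0, hLS, b, hb, fun z hz => hfix z (hz.trans hz0) b hb, ⟨v, ?_, ?_⟩, ?_⟩
  · -- the label
    have hX : c.X (c.ω ^ 2 * b w0) ≠ c.X (c.ω ^ 2 * w0) := by
      intro h1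
      apply hby
      rw [map_add, map_sub, map_one, Cst.b_X b hba, map_mul, map_mul, map_pow, hbω, hbz0, h1]
    rw [hv] at hX
    have hv4 : ∀ v : V4, v = 0 ∨ v = (0, 1) ∨ v = (1, 0) ∨ v = (1, 1) := by decide
    rcases hv4 v with h0 | h0 | h0 | h0
    · rw [h0, Cst.S_zero] at hX
      exact absurd rfl hX
    · rw [h0] at hX
      exfalso
      apply hX
      have h1 : c.S (0, 1) w0 = c.ω * c.s0 (c.ω ^ 2 * w0) := by
        simp [Cst.S]
      have h2 : c.ω ^ 2 * c.S (0, 1) w0 = c.s0 (c.ω ^ 2 * w0) := by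
        rw [h1]
        linear_combination (c.s0 (c.ω ^ 2 * w0)) * hω3
      exact (congrArg c.X h2).trans (Cst.X_s0 (hne w0 hw0))
    · exact Or.inl h0
    · exact Or.inr h0
  · intro w hw
    obtain ⟨v', hv'⟩ := hgood.trans (hw.trans hPw0.symm)
    have h1 : c.S (v' + v) w0 = c.S (v + v') w0 := by rw [add_comm]
    rw [hgood.S_add, hgood.S_add] at h1
    rw [hv', Cst.b_S b hba hbω, hv, h1]
  · intro w hw hwne
    have hz : (c.P w) ^ 13 = c.m := hw.trans hz0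
    obtain ⟨uO, u, hiff, -, huO, hu, -⟩ := h.roots4 (hG (c.P w) hz hwne)
    rcases (hiff w).1 rfl with h1 | ⟨i, h1⟩
    · rw [h1]; exact huO b hb
    · rw [h1]; exact hu i b hb

end

end Pool.Agent.Arb
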